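import Mathlib

set_option autoImplicit false

open CategoryTheory

namespace Pool.Agent.Results.MP_0b9bd1_al.NotLee

/-- `R` is (left) Lee `n`-coherent (`n` a positive integer): each finitely generated submodule
`K ⊆ R^m` (`m ≥ 1`) of projective dimension at most `n - 1` is finitely presented. -/
def LeeCoherent (n : ℕ) (R : Type) [Ring R] : Prop :=
  ∀ m : ℕ, 1 ≤ m → ∀ K : Submodule R (Fin m → R), K.FG →
    HasProjectiveDimensionLE (ModuleCat.of R K) (n - 1) → Module.FinitePresentation R K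

/-- `R` is weakly (left) Lee `n`-coherent: each finitely generated left ideal of projective
dimension at most `n - 1` is finitely presented. -/
def WeaklyLeeCoherent (n : ℕ) (R : Type) [Ring R] : Prop :=
  ∀ I : Ideal R, I.FG →
    HasProjectiveDimensionLE (ModuleCat.of R I) (n - 1) → Module.FinitePresentation R I

theorem pd_iff {R M N : Type} [Ring R] [AddCommGroup M] [Module R M] [AddCommGroup N] [Module R N]
    [Module.Projective R M] (f : M →ₗ[R] N) (h : Function.Surjective f) :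
    HasProjectiveDimensionLE (ModuleCat.of R N) (2 - 1) ↔
      Module.Projective R (LinearMap.ker f) := by
  rw [IsProjective.iff_projective, projective_iff_hasProjectiveDimensionLT_one]
  exact (LinearMap.shortExact_shortComplexKer h).hasProjectiveDimensionLT_X₃_iff 0
    ((IsProjective.iff_projective M).1 inferInstance)

/-- Proof device: the field with two elements. -/
abbrev F : Type := ZMod 2

/-- Proof device: the triangular ring with diagonal `F`, `F[x,y]/(x,y)²`, `F`. -/
@[ext] structure A : Type where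
  l : F
  t : F
  x : F
  y : F
  m : F
  u : F
  v : F
  w : F
  b : ℕ →₀ F

namespace A

noncomputable instance : Add A := ⟨fun r s => ⟨r.l + s.l, r.t + s.t, r.x + s.x, r.y + s.y,
  r.m + s.m, r.u + s.u, r.v + s.v, r.w + s.w, r.b + s.b⟩⟩
noncomputable instance : Neg A := ⟨fun r => ⟨-r.l, -r.t, -r.x, -r.y, -r.m, -r.u, -r.v, -r.w, -r.b⟩⟩
noncomputable instance : Zero A := ⟨⟨0, 0, 0, 0, 0, 0, 0, 0, 0⟩⟩
noncomputable instance : One A := ⟨⟨1, 1, 0, 0, 1, 0, 0, 0, 0⟩⟩
noncomputable instance : Mul A := ⟨fun r s => ⟨r.l * s.l, r.t * s.t, r.t * s.x + r.x * s.t,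
  r.t * s.y + r.y * s.t, r.m * s.m, r.t * s.u + r.u * s.l, r.t * s.v + r.v * s.l,
  r.t * s.w + r.x * s.u + r.y * s.v + r.w * s.l, r.m • s.b + s.t • r.b⟩⟩

theorem add_def (r s : A) : r + s = ⟨r.l + s.l, r.t + s.t, r.x + s.x, r.y + s.y,
  r.m + s.m, r.u + s.u, r.v + s.v, r.w + s.w, r.b + s.b⟩ := rfl
theorem neg_def (r : A) : -r = ⟨-r.l, -r.t, -r.x, -r.y, -r.m, -r.u, -r.v, -r.w, -r.b⟩ := rfl
theorem zero_def : (0 : A) = ⟨0, 0, 0, 0, 0, 0, 0, 0, 0⟩ := rfl
theorem one_def : (1 : A) = ⟨1, 1, 0, 0, 1, 0, 0, 0, 0⟩ := rfl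
theorem mul_def (r s : A) : r * s = ⟨r.l * s.l, r.t * s.t, r.t * s.x + r.x * s.t,
  r.t * s.y + r.y * s.t, r.m * s.m, r.t * s.u + r.u * s.l, r.t * s.v + r.v * s.l,
  r.t * s.w + r.x * s.u + r.y * s.v + r.w * s.l, r.m • s.b + s.t • r.b⟩ := rfl

noncomputable instance : Ring A := Ring.ofMinimalAxioms
  (fun a b c => by ext <;> simp [add_def, add_assoc])
  (fun a => by ext <;> simp [add_def, zero_def])
  (fun a => by ext <;> simp [add_def, zero_def, neg_def, CharTwo.add_self_eq_zero])
  (fun a b c => by ext <;> simp [mul_def] <;> ring)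
  (fun a => by ext <;> simp [mul_def, one_def])
  (fun a => by ext <;> simp [mul_def, one_def])
  (fun a b c => by ext <;> simp [mul_def, add_def] <;> ring)
  (fun a b c => by ext <;> simp [mul_def, add_def] <;> ring)

/-- Proof device: the finite part of an element. -/
def fin (r : A) : Fin 8 → F := ![r.l, r.t, r.x, r.y, r.m, r.u, r.v, r.w]

/-- Proof device: an element of the infinite ideal. -/
def B (b : ℕ →₀ F) : A := ⟨0, 0, 0, 0, 0, 0, 0, 0, b⟩

/-- Proof device: a scalar at the middle vertex. -/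
def T (c : F) : A := ⟨0, c, 0, 0, 0, 0, 0, 0, 0⟩

theorem sum_eq {ι : Type} (D : A → F) (_h0 : D 0 = 0) (hD : ∀ r s, D (r + s) = D r + D s)
    (s : Finset ι) (f : ι → A) : D (∑ i ∈ s, f i) = ∑ i ∈ s, D (f i) :=
  map_sum (AddMonoidHom.mk' D hD) f s

theorem lift {m : ℕ} (g : Fin m → A) (Ω : Submodule A (Fin m → A))
    (hΩ : ∀ r, r ∈ Ω ↔ ∑ j, r j * g j = 0) [hP : Module.Projective A Ω] (c : Fin m → F)
    (hc : ∑ j, c j * (g j).t = 0) : ∃ ω ∈ Ω, ∀ j, (ω j).t = c j := by
  classical
  set h : A := ∑ j, T (c j) * g j with hh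
  have ht : h.t = 0 := by
    rw [hh, sum_eq A.t rfl (fun _ _ => rfl), ← hc]; rfl
  have hl : h.l = 0 := by
    rw [hh, sum_eq A.l rfl (fun _ _ => rfl)]; simp [T, mul_def]
  obtain ⟨p, q, D, h0, hD, hm, hz, h1⟩ : ∃ (p q : F) (D : A → F), D 0 = 0 ∧
      (∀ r s, D (r + s) = D r + D s) ∧ (∀ r s, D (r * s) = r.t * D s + D r * s.t) ∧
      p * h.u + q * h.v = 0 ∧ D ⟨0, 0, p, q, 0, 0, 0, 0, 0⟩ = 1 := by
    have z2 : ∀ a : F, a = 0 ∨ a = 1 := by decide
    rcases z2 h.u with hu | hu
    · exact ⟨1, 0, A.x, rfl, fun _ _ => rfl, fun _ _ => rfl, by simp [hu], rfl⟩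
    · exact ⟨-h.v, 1, A.y, rfl, fun _ _ => rfl, fun _ _ => rfl, by rw [hu]; ring, rfl⟩
  set z : A := ⟨0, 0, p, q, 0, 0, 0, 0, 0⟩ with hzd
  have hω : (fun j => z * T (c j)) ∈ Ω := by
    rw [hΩ]
    simp only [mul_assoc]
    rw [← Finset.mul_sum, ← hh]
    ext <;> simp [hzd, mul_def, zero_def, ht, hz]
  obtain ⟨s, hs⟩ := Module.projective_def.1 hP
  set ω : Ω := ⟨_, hω⟩
  have hb : B (Finsupp.single 0 1) • ω = 0 := by
    ext1; funext j
    change B _ * (z * T (c j)) = 0
    ext <;> simp [hzd, mul_def, zero_def, B, T]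
  have hs0 : ∀ e, (s ω e).t = 0 := fun e => by
    have h2 : B (Finsupp.single 0 1) * s ω e = 0 := by
      rw [← smul_eq_mul, ← Finsupp.smul_apply, ← map_smul, hb]; simp
    have := congrArg (fun r : A => r.b 0) h2
    simpa [mul_def, B, zero_def] using this
  refine ⟨∑ e ∈ (s ω).support, T (D (s ω e)) • (e : Fin m → A),
    Ω.sum_mem fun e _ => Ω.smul_mem _ e.2, fun j => ?_⟩
  have h3 : z * T (c j) = ∑ e ∈ (s ω).support, s ω e * (e : Fin m → A) j := by
    have := congrArg (fun e : Ω => (e : Fin m → A) j) (hs ω)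
    simp only [Finsupp.linearCombination_apply, Finsupp.sum, id, Submodule.coe_sum,
      Finset.sum_apply, Submodule.coe_smul, Pi.smul_apply, smul_eq_mul] at this
    exact this.symm
  have h4 := congrArg D h3
  rw [sum_eq D h0 hD, hm, h1] at h4
  rw [Finset.sum_apply, sum_eq A.t rfl (fun _ _ => rfl)]
  simp only [hm, hs0, zero_mul, zero_add] at h4
  have h5 : z.t = 0 := rfl
  rw [h5, zero_mul, zero_add, one_mul] at h4
  exact h4.symm

theorem fg {m : ℕ} (g : Fin m → A) (Ω : Submodule A (Fin m → A))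
    (hΩ : ∀ r, r ∈ Ω ↔ ∑ j, r j * g j = 0) [hP : Module.Projective A Ω] : Ω.FG := by
  classical
  let φ : Ω → Fin m → Fin 8 → F := fun ω j => fin (ω.1 j)
  let σ : (Fin m → Fin 8 → F) → Ω := Function.invFun φ
  have hσ : ∀ ω, φ (σ (φ ω)) = φ ω := fun ω => Function.invFun_eq ⟨ω, rfl⟩
  refine Submodule.fg_def.2 ⟨Set.range fun a => (σ a).1, Set.finite_range _, le_antisymm
    (Submodule.span_le.2 (by rintro _ ⟨a, rfl⟩; exact (σ a).2)) fun ω hω => ?_⟩
  set G := Submodule.span A (Set.range fun a => (σ a).1)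
  have hG : ∀ a, (σ a).1 ∈ G := fun a => Submodule.subset_span ⟨a, rfl⟩
  set ω' := σ (φ ⟨ω, hω⟩) with hω'
  have hd : ∀ j, ω j - ω'.1 j = B ((ω j - ω'.1 j).b) := fun j => by
    have e := congrFun (congrFun (hσ ⟨ω, hω⟩) j)
    have e0 : (ω'.1 j).l = (ω j).l := e 0
    have e1 : (ω'.1 j).t = (ω j).t := e 1
    have e2 : (ω'.1 j).x = (ω j).x := e 2
    have e3 : (ω'.1 j).y = (ω j).y := e 3
    have e4 : (ω'.1 j).m = (ω j).m := e 4
    have e5 : (ω'.1 j).u = (ω j).u := e 5
    have e6 : (ω'.1 j).v = (ω j).v := e 6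
    have e7 : (ω'.1 j).w = (ω j).w := e 7
    rw [sub_eq_add_neg]
    ext <;> simp [add_def, neg_def, B, e0, e1, e2, e3, e4, e5, e6, e7, CharTwo.add_self_eq_zero]
  set β : Fin m → ℕ →₀ F := fun j => (ω j - ω'.1 j).b
  have hβ : ∀ n, ∑ j, β j n * (g j).t = 0 := fun n => by
    have := (hΩ _).1 (Ω.sub_mem hω ω'.2)
    have h2 := congrArg (fun r : A => r.b n) this
    simp only [Pi.sub_apply] at h2
    rw [sum_eq (fun r : A => r.b n) rfl (fun _ _ => rfl)] at h2
    rw [← show (0 : A).b n = 0 from rfl, ← h2]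
    refine Finset.sum_congr rfl fun j _ => ?_
    rw [hd j]
    simp [mul_def, B, mul_comm, β]
  choose η hη hη' using fun n => lift g Ω hΩ (fun j => β j n) (hβ n)
  have key : ω - ω'.1 = ∑ n ∈ Finset.univ.biUnion fun j => (β j).support,
      B (Finsupp.single n 1) • (σ (φ ⟨η n, hη n⟩)).1 := by
    funext j
    have h1 : ∀ n, (B (Finsupp.single n 1) • (σ (φ ⟨η n, hη n⟩)).1) j =
        B (Finsupp.single n (β j n)) := fun n => by
      have : ((σ (φ ⟨η n, hη n⟩)).1 j).t = (η n j).t := congrFun (congrFun (hσ ⟨η n, hη n⟩) j) 1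
      rw [hη'] at this
      change B _ * _ = _
      ext <;> simp [mul_def, B, this, Finsupp.single_apply]
    rw [Pi.sub_apply, hd j, Finset.sum_apply]
    simp only [h1]
    have h2 : ∀ (s : Finset ℕ) (f : ℕ → ℕ →₀ F), ∑ n ∈ s, B (f n) = B (∑ n ∈ s, f n) :=
      fun s f => (map_sum (AddMonoidHom.mk' B fun a b => by ext <;> simp [add_def, B]) f s).symm
    rw [h2]
    congr 1
    exact (Finsupp.sum_single (β j)).symm.trans (Finsupp.sum_of_support_subset _
      (Finset.subset_biUnion_of_mem (fun j => (β j).support) (Finset.mem_univ j)) _ (by simp))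
  rw [← sub_add_cancel ω ω'.1, key]
  exact G.add_mem (G.sum_mem fun n _ => G.smul_mem _ (hG _)) (hG _)

end A

open A

theorem result : ∃ (R : Type) (_ : Ring R), WeaklyLeeCoherent 2 R ∧ ¬ LeeCoherent 2 R := by
  classical
  refine ⟨A, inferInstance, fun I hI hp => ?_, fun h => ?_⟩
  · obtain ⟨m, g, hg⟩ := Submodule.fg_iff_exists_fin_generating_family.1 hI
    have hgI : ∀ j, g j ∈ I := fun j => hg ▸ Submodule.subset_span ⟨j, rfl⟩
    let f : (Fin m → A) →ₗ[A] I := Fintype.linearCombination A fun j => ⟨g j, hgI j⟩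
    have hf : ∀ r, (f r : A) = ∑ j, r j * g j := fun r => by
      simp [f, Fintype.linearCombination_apply]
    have hs : Function.Surjective f := by
      rintro ⟨a, ha⟩
      rw [← hg] at ha
      obtain ⟨c, hc⟩ := (Submodule.mem_span_range_iff_exists_fun A).1 ha
      exact ⟨c, Subtype.ext (by rw [hf]; exact hc)⟩
    have := (pd_iff f hs).1 hp
    exact Module.finitePresentation_of_surjective f hs (A.fg g _ fun r => by
      rw [LinearMap.mem_ker, ← hf, Subtype.ext_iff]; rfl)
  · let a : Fin 2 → A := ![⟨0, 0, 0, 0, 0, 1, 0, 0, 0⟩, ⟨0, 0, 0, 0, 0, 0, 1, 0, 0⟩]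
    let f := (LinearMap.toSpanSingleton A (Fin 2 → A) a).rangeRestrict
    have hs : Function.Surjective f := LinearMap.surjective_rangeRestrict _
    have hk : ∀ r, r ∈ LinearMap.ker f ↔ r.t = 0 ∧ r.x = 0 ∧ r.y = 0 := fun r => by
      rw [LinearMap.ker_rangeRestrict, LinearMap.mem_ker, LinearMap.toSpanSingleton_apply,
        funext_iff, Fin.forall_fin_two]
      simp [a, mul_def, zero_def]
      tauto
    have hP : Module.Projective A (LinearMap.ker f) := by
      let E : F → A := fun c => ⟨0, 0, 0, 0, c, 0, 0, 0, 0⟩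
      let e : A := ⟨1, 0, 0, 0, 1, 0, 0, 0, 0⟩
      let i : LinearMap.ker f →ₗ[A] A × (ℕ →₀ A) :=
        { toFun := fun r => (r.1 * e, r.1.b.mapRange E rfl)
          map_add' := fun r s => Prod.ext (add_mul _ _ _) (by
            ext1 n
            ext <;> simp [E, add_def])
          map_smul' := fun c r => Prod.ext (mul_assoc _ _ _) (by
            ext1 n
            ext <;> simp [E, mul_def, ((hk _).1 r.2).1]) }
      let s : (A × (ℕ →₀ A)) →ₗ[A] LinearMap.ker f :=
        (LinearMap.toSpanSingleton A _ ⟨e, (hk _).2 ⟨rfl, rfl, rfl⟩⟩).coprod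
          (Finsupp.linearCombination A fun n => ⟨B (Finsupp.single n 1), (hk _).2 ⟨rfl, rfl, rfl⟩⟩)
      refine Module.Projective.of_split i s (LinearMap.ext fun r => Subtype.ext ?_)
      obtain ⟨h1, h2, h3⟩ := (hk _).1 r.2
      have h4 : ∀ b : ℕ →₀ F, ((Finsupp.linearCombination A fun n => (⟨B (Finsupp.single n 1),
          (hk _).2 ⟨rfl, rfl, rfl⟩⟩ : LinearMap.ker f)) (b.mapRange E rfl) : A) = B b := by
        intro b
        induction b using Finsupp.induction_linear with
        | zero => simp; rfl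
        | add b c hb hc =>
          rw [Finsupp.mapRange_add (fun _ _ => by ext <;> simp [E, add_def]), map_add,
            Submodule.coe_add, hb, hc]
          ext <;> simp [add_def, B]
        | single n c =>
          rw [Finsupp.mapRange_single, Finsupp.linearCombination_single]
          change E c * B _ = _
          ext <;> simp [mul_def, B, E, Finsupp.single_apply]
      change r.1 * e * e + _ = r.1
      erw [h4]
      ext <;> simp [mul_def, add_def, B, e, h1, h2, h3]
    have := h 2 (by norm_num) _ (by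
      rw [LinearMap.range_toSpanSingleton]; exact Submodule.fg_span_singleton a)
      ((pd_iff f hs).2 hP)
    obtain ⟨S, hS⟩ := Module.FinitePresentation.fg_ker f hs
    obtain ⟨n, hn⟩ := Infinite.exists_notMem_finset (S.biUnion fun r => r.b.support)
    have h1 : ∀ r ∈ Submodule.span A (S : Set A), r.t = 0 ∧ r.b n = 0 := by
      intro r hr
      induction hr using Submodule.span_induction with
      | mem r hr =>
        refine ⟨((hk r).1 (hS ▸ Submodule.subset_span hr)).1, ?_⟩
        by_contra h2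
        exact hn (Finset.mem_biUnion.2 ⟨r, hr, Finsupp.mem_support_iff.2 h2⟩)
      | zero => exact ⟨rfl, rfl⟩
      | add r s _ _ h2 h3 => simp [add_def, h2.1, h2.2, h3.1, h3.2]
      | smul c r _ h2 => simp [mul_def, h2.1, h2.2]
    have := (h1 (B (Finsupp.single n 1)) (hS ▸ (hk _).2 ⟨rfl, rfl, rfl⟩)).2
    simp [B] at this

end Pool.Agent.Results.MP_0b9bd1_al.NotLee
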